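import Pool.Agent.H45.ERWOd
import Pool.Agent.H45.ERWMeas

open MeasureTheory Set Filter ProbabilityTheory Pool.Agent.H45.ERW Pool.Agent.H45.Coin

theorem Pool.Agent.Results.MP_54d550_pr.Critical.result :
    ∃ P : Measure (ℤ → ℕ → ℝ), IsProbabilityMeasure P ∧
      (∀ᵐ ω ∂P, ∀ x n, ω x n ∈ Icc (0 : ℝ) 1) ∧
      Ergodic (fun (ω : ℤ → ℕ → ℝ) (x : ℤ) => ω (x + 1)) P ∧
      (∀ x, 0 < P {ω | ∀ n, 1 ≤ n → 0 < ω x n} ∧ 0 < P {ω | ∀ n, 1 ≤ n → ω x n < 1}) ∧
      (∀ᵐ ω ∂P, ∀ x n, 2 < n → ω x n = 1 / 2) ∧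
      ∫ ω, (∑' i : ℕ, (2 * ω 0 (i + 1) - 1)) ∂P = 1 ∧
      ∀ X : (ℤ → ℕ → ℝ) → (ℕ → ℝ) → ℕ → ℤ, (∀ ω u, X ω u 0 = 0) →
        (∀ ω u n, X ω u (n + 1) = X ω u n + if u n < ω (X ω u n)
          ((Finset.range (n + 1)).filter fun m => X ω u m = X ω u n).card then 1 else -1) →
        ∀ᵐ p ∂(P.prod (Measure.infinitePi fun _ : ℕ => volume.restrict (Icc (0 : ℝ) 1))),
          Tendsto (fun n => |X p.1 p.2 n|) atTop atTop := by
  have hm := measurable_envO
  have hE : ∀ y : ℤ, 0 < mu ((fun x => x + (y : Od)) ⁻¹' {x | EE x}) := fun y => by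
    rw [measure_preimage_add_right]; exact mu_E
  have hc : ∀ (x : ℤ) (n : ℕ), Measurable fun ω : ℤ → ℕ → ℝ => ω x n := fun x n =>
    (measurable_pi_apply n).comp (measurable_pi_apply x)
  have hrange : ∀ᵐ ω ∂(mu.map envO), ∀ x n, ω x n ∈ Icc (0 : ℝ) 1 ∧ (2 < n → ω x n = 1 / 2) := by
    simp only [ae_all_iff]
    intro x n
    rw [ae_map_iff hm.aemeasurable]
    · refine Eventually.of_forall fun w => ⟨ck_mem _ _ (dr_le _ _) _, fun hi => ?_⟩
      simp [envO, stack, ck, show n ≠ 1 by omega, show n ≠ 2 by omega]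
    · exact (hc x n measurableSet_Icc).inter
        (MeasurableSet.imp (MeasurableSet.const _) (hc x n (measurableSet_singleton _)))
  refine ⟨mu.map envO, Measure.isProbabilityMeasure_map hm.aemeasurable,
    hrange.mono fun ω h x n => (h x n).1, ?_, fun x => ⟨?_, ?_⟩,
    hrange.mono fun ω h x n => (h x n).2, ?_, fun X h0 h1 => ?_⟩
  · refine (MeasurePreserving.mk hm rfl).ergodic_of_ergodic_semiconj ergodic_mu
      (measurable_pi_lambda _ fun y => measurable_pi_apply _) fun x => ?_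
    funext y i
    simp only [envO]
    congr 1
    push_cast; ring
  · refine (hE x).trans_le (le_trans (measure_mono ?_)
      (Measure.le_map_apply hm.aemeasurable _))
    intro w hw i _
    have : EE (w + x) := hw
    simp [envO, stack, ck, this]
  · refine (hE x).trans_le (le_trans (measure_mono ?_)
      (Measure.le_map_apply hm.aemeasurable _))
    intro w hw i _
    have : EE (w + x) := hw
    simp [envO, stack, ck, this]
    norm_num
  · have : ∫ ω, (∑' i : ℕ, (2 * ω 0 (i + 1) - 1)) ∂(mu.map envO) =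
        ∫ ω, (∑ i ∈ Finset.range 2, (2 * ω 0 (i + 1) - 1)) ∂(mu.map envO) := by
      refine integral_congr_ae (hrange.mono fun ω h => tsum_eq_sum fun i hi => ?_)
      rw [(h 0 (i + 1)).2 (by simp at hi; omega)]; norm_num
    rw [this, integral_map hm.aemeasurable (Finset.measurable_sum _ fun i _ =>
      ((hc 0 (i + 1)).const_mul 2).sub_const 1).aestronglyMeasurable]
    refine Eq.trans ?_ integral_dd
    congr 1
    funext x
    rw [← tsum_stack, tsum_eq_sum (s := Finset.range 2) fun i hi => ?_]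
    · simp [envO]
    · simp [stack, ck, show i ≠ 0 by simp at hi; omega, show i ≠ 1 by simp at hi; omega]
  · have e : X = fun ω u n => (st ω u n).1 := by
      funext ω u n
      exact st_unique ω u (X ω u) (h0 ω u) (h1 ω u) n
    subst e
    have hM := measurable_path measurableSet_trans
    refine (Measure.ae_prod_iff_ae_ae (μ := mu.map envO) (ν := iidU) hM).2
      ((ae_map_iff hm.aemeasurable ?_).2 (Eventually.of_forall fun x => transient_od x))
    exact measurable_measure_prodMk_left hM.compl (measurableSet_singleton 0)
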